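import Mathlib

/-!
# Hilbert-Schmidt norms and the trilinear form of an isotropic system
-/

set_option autoImplicit false
set_option linter.unusedSectionVars false

open Finset Matrix

namespace Pool.Agent.LRC

section HS

variable {κ ι ρ : Type} [Fintype κ] [Fintype ι] [Fintype ρ]

/-- squared Hilbert-Schmidt norm -/
def hs (A : Matrix κ ι ℝ) : ℝ := ∑ i, ∑ j, A i j ^ 2

/-- the operator norm is at most `|c|` -/
def OpB (A : Matrix κ ι ℝ) (c : ℝ) : Prop := ∀ w, (A *ᵥ w) ⬝ᵥ (A *ᵥ w) ≤ c ^ 2 * (w ⬝ᵥ w)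

theorem dot_self_nonneg (w : ι → ℝ) : 0 ≤ w ⬝ᵥ w :=
  Finset.sum_nonneg fun i _ => mul_self_nonneg (w i)

theorem dot_cs (a b : ι → ℝ) : (a ⬝ᵥ b) ^ 2 ≤ (a ⬝ᵥ a) * (b ⬝ᵥ b) := by
  have h := Finset.sum_mul_sq_le_sq_mul_sq Finset.univ a b
  simpa [dotProduct, sq] using h

theorem dot_add_sq_le (a b : ι → ℝ) :
    (a + b) ⬝ᵥ (a + b) ≤ 2 * (a ⬝ᵥ a) + 2 * (b ⬝ᵥ b) := by
  have h := dot_self_nonneg (a - b)
  simp only [add_dotProduct, dotProduct_add, sub_dotProduct, dotProduct_sub] at h ⊢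
  linarith

theorem hs_nonneg (A : Matrix κ ι ℝ) : 0 ≤ hs A :=
  Finset.sum_nonneg fun _ _ => Finset.sum_nonneg fun _ _ => sq_nonneg _

theorem hs_transpose (A : Matrix κ ι ℝ) : hs Aᵀ = hs A := by
  unfold hs
  rw [Finset.sum_comm]
  rfl

/-- sum over the columns -/
theorem hs_eq_col (A : Matrix κ ι ℝ) : hs A = ∑ j, (fun i => A i j) ⬝ᵥ (fun i => A i j) := by
  unfold hs dotProduct
  rw [Finset.sum_comm]
  simp only [sq]

theorem col_mul (R : Matrix κ ι ℝ) (A : Matrix ι ρ ℝ) (j : ρ) :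
    (fun i => (R * A) i j) = R *ᵥ (fun i => A i j) := by
  funext i
  simp [Matrix.mul_apply, mulVec, dotProduct]

theorem hs_mul_left {R : Matrix κ ι ℝ} {c : ℝ} (hR : OpB R c) (A : Matrix ι ρ ℝ) :
    hs (R * A) ≤ c ^ 2 * hs A := by
  rw [hs_eq_col, hs_eq_col, Finset.mul_sum]
  apply Finset.sum_le_sum
  intro j _
  rw [col_mul]
  exact hR _

theorem hs_mul_right {R : Matrix ι ρ ℝ} {c : ℝ} (hR : OpB Rᵀ c) (A : Matrix κ ι ℝ) :
    hs (A * R) ≤ c ^ 2 * hs A := by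
  rw [← hs_transpose, ← hs_transpose A, Matrix.transpose_mul]
  exact hs_mul_left hR _

theorem hs_add_le (A B : Matrix κ ι ℝ) : hs (A + B) ≤ 2 * hs A + 2 * hs B := by
  unfold hs
  simp only [Finset.mul_sum, ← Finset.sum_add_distrib]
  apply Finset.sum_le_sum
  intro i _
  apply Finset.sum_le_sum
  intro j _
  rw [Matrix.add_apply]
  nlinarith [sq_nonneg (A i j - B i j)]

theorem hs_smul (c : ℝ) (A : Matrix κ ι ℝ) : hs (c • A) = c ^ 2 * hs A := by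
  unfold hs
  simp only [Finset.mul_sum, Matrix.smul_apply, smul_eq_mul, mul_pow]

theorem mulVec_sq_le (A : Matrix κ ι ℝ) (w : ι → ℝ) :
    (A *ᵥ w) ⬝ᵥ (A *ᵥ w) ≤ hs A * (w ⬝ᵥ w) := by
  unfold hs
  rw [Finset.sum_mul]
  unfold dotProduct
  apply Finset.sum_le_sum
  intro i _
  have h := dot_cs (fun j => A i j) w
  have h1 : (A *ᵥ w) i = (fun j => A i j) ⬝ᵥ w := rfl
  rw [h1, ← sq]
  refine h.trans (le_of_eq ?_)
  simp [dotProduct, sq]

theorem opB_sqrt_hs (A : Matrix κ ι ℝ) : OpB A (Real.sqrt (hs A)) := by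
  intro w
  rw [Real.sq_sqrt (hs_nonneg A)]
  exact mulVec_sq_le A w

theorem OpB.mono {A : Matrix κ ι ℝ} {c d : ℝ} (h : OpB A c) (hc : 0 ≤ c) (hcd : c ≤ d) :
    OpB A d := by
  intro w
  refine (h w).trans ?_
  exact mul_le_mul_of_nonneg_right (by nlinarith) (dot_self_nonneg w)

theorem OpB.mul {A : Matrix κ ι ℝ} {B : Matrix ι ρ ℝ} {c d : ℝ} (hA : OpB A c) (hB : OpB B d) :
    OpB (A * B) (c * d) := by
  intro w
  rw [← Matrix.mulVec_mulVec]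
  refine (hA _).trans ?_
  rw [mul_pow, mul_assoc]
  exact mul_le_mul_of_nonneg_left (hB w) (sq_nonneg c)

/-- symmetric matrices: bound of the bilinear form -/
theorem opB_of_bil {A : Matrix κ ι ℝ} {c : ℝ}
    (h : ∀ u w, (u ⬝ᵥ (A *ᵥ w)) ^ 2 ≤ c ^ 2 * ((u ⬝ᵥ u) * (w ⬝ᵥ w))) : OpB A c := by
  intro w
  set u := A *ᵥ w
  have h1 := h u w
  have h0 := dot_self_nonneg u
  have hw := dot_self_nonneg w
  rcases h0.eq_or_lt with h2 | h2
  · rw [← h2]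
    exact mul_nonneg (sq_nonneg c) hw
  · have h3 : (u ⬝ᵥ u) * (u ⬝ᵥ u) ≤ (c ^ 2 * (w ⬝ᵥ w)) * (u ⬝ᵥ u) := by
      have : (u ⬝ᵥ (A *ᵥ w)) ^ 2 = (u ⬝ᵥ u) * (u ⬝ᵥ u) := by rw [sq]
      nlinarith
    exact le_of_mul_le_mul_right h3 h2

theorem bil_of_opB {A : Matrix κ ι ℝ} {c : ℝ} (h : OpB A c) (u : κ → ℝ) (w : ι → ℝ) :
    (u ⬝ᵥ (A *ᵥ w)) ^ 2 ≤ c ^ 2 * ((u ⬝ᵥ u) * (w ⬝ᵥ w)) := by
  refine (dot_cs u _).trans ?_
  have h1 := mul_le_mul_of_nonneg_left (h w) (dot_self_nonneg u)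
  linarith

theorem OpB.transpose {A : Matrix κ ι ℝ} {c : ℝ} (h : OpB A c) : OpB Aᵀ c := by
  apply opB_of_bil
  intro u w
  have h1 : u ⬝ᵥ (Aᵀ *ᵥ w) = w ⬝ᵥ (A *ᵥ u) := by
    rw [Matrix.mulVec_transpose, dotProduct_comm u, ← Matrix.dotProduct_mulVec]
  rw [h1]
  have := bil_of_opB h w u
  linarith

theorem OpB.add {A B : Matrix κ ι ℝ} {c d : ℝ} (hA : OpB A c) (hB : OpB B d) (hc : 0 ≤ c)
    (hd : 0 ≤ d) : OpB (A + B) (c + d) := by
  intro w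
  rw [Matrix.add_mulVec]
  set a := A *ᵥ w
  set b := B *ᵥ w
  have h1 := hA w
  have h2 := hB w
  have h3 := dot_cs a b
  have hw := dot_self_nonneg w
  have ha := dot_self_nonneg a
  have hb := dot_self_nonneg b
  have h4 : a ⬝ᵥ b ≤ c * d * (w ⬝ᵥ w) := by
    have h5 : (a ⬝ᵥ b) ^ 2 ≤ (c * d * (w ⬝ᵥ w)) ^ 2 := by
      refine h3.trans ?_
      calc (a ⬝ᵥ a) * (b ⬝ᵥ b) ≤ (c ^ 2 * (w ⬝ᵥ w)) * (d ^ 2 * (w ⬝ᵥ w)) :=
            mul_le_mul h1 h2 hb (by positivity)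
        _ = _ := by ring
    exact (le_abs_self _).trans (abs_le_of_sq_le_sq h5 (by positivity))
  simp only [add_dotProduct, dotProduct_add]
  rw [dotProduct_comm b a]
  nlinarith

end HS

section Tri

variable {Y ι κ ρ : Type} [Fintype Y] [Fintype ι] [DecidableEq ι] [Fintype κ] [Fintype ρ]

/-- the second moments are the identity -/
def Iso (ν : Y → ℝ) (z : Y → ι → ℝ) : Prop :=
  ∀ i j, ∑ y, ν y * (z y i * z y j) = if i = j then 1 else 0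

/-- the operator `E h z zᵀ` -/
def TH (ν : Y → ℝ) (z : Y → ι → ℝ) (h : Y → ℝ) : Matrix ι ι ℝ :=
  Matrix.of fun i j => ∑ y, ν y * (h y * (z y i * z y j))

/-- the operator of multiplication with the linear form `c` -/
def TV (ν : Y → ℝ) (z : Y → ι → ℝ) (c : ι → ℝ) : Matrix ι ι ℝ := TH ν z fun y => c ⬝ᵥ z y

variable {ν : Y → ℝ} {z : Y → ι → ℝ}

theorem TH_transpose (h : Y → ℝ) : (TH ν z h)ᵀ = TH ν z h := by
  ext i j
  simp only [TH, Matrix.transpose_apply, Matrix.of_apply]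
  apply Finset.sum_congr rfl
  intro y _
  ring

theorem TV_transpose (c : ι → ℝ) : (TV ν z c)ᵀ = TV ν z c := TH_transpose _

theorem TH_add (h h' : Y → ℝ) : TH ν z (h + h') = TH ν z h + TH ν z h' := by
  ext i j
  simp only [TH, Matrix.add_apply, Matrix.of_apply, ← Finset.sum_add_distrib, Pi.add_apply]
  apply Finset.sum_congr rfl
  intro y _
  ring

theorem TH_smul (t : ℝ) (h : Y → ℝ) : TH ν z (t • h) = t • TH ν z h := by
  ext i j
  simp only [TH, Matrix.smul_apply, Matrix.of_apply, smul_eq_mul, Finset.mul_sum, Pi.smul_apply]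
  apply Finset.sum_congr rfl
  intro y _
  ring

theorem TH_sum {σ : Type} (s : Finset σ) (h : σ → Y → ℝ) :
    TH ν z (fun y => ∑ a ∈ s, h a y) = ∑ a ∈ s, TH ν z (h a) := by
  ext i j
  rw [Matrix.sum_apply]
  simp only [TH, Matrix.of_apply]
  rw [Finset.sum_comm]
  apply Finset.sum_congr rfl
  intro y _
  rw [Finset.sum_mul, Finset.mul_sum]

theorem TV_add (c d : ι → ℝ) : TV ν z (c + d) = TV ν z c + TV ν z d := by
  unfold TV
  rw [← TH_add]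
  congr 1
  funext y
  simp [add_dotProduct]

theorem TV_smul (t : ℝ) (c : ι → ℝ) : TV ν z (t • c) = t • TV ν z c := by
  unfold TV
  rw [← TH_smul]
  congr 1
  funext y
  simp [smul_dotProduct]

theorem TV_neg (c : ι → ℝ) : TV ν z (-c) = -TV ν z c := by
  have := TV_smul (ν := ν) (z := z) (-1) c
  simpa using this

theorem TV_zero : TV ν z 0 = 0 := by
  have := TV_smul (ν := ν) (z := z) 0 0
  simpa using this

theorem TV_sub (c d : ι → ℝ) : TV ν z (c - d) = TV ν z c - TV ν z d := by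
  rw [sub_eq_add_neg, TV_add, TV_neg, sub_eq_add_neg]

theorem TV_sum {σ : Type} (s : Finset σ) (c : σ → ι → ℝ) :
    TV ν z (∑ a ∈ s, c a) = ∑ a ∈ s, TV ν z (c a) := by
  unfold TV
  rw [← TH_sum]
  congr 1
  funext y
  rw [sum_dotProduct]

theorem TH_mulVec (h : Y → ℝ) (d : ι → ℝ) (i : ι) :
    (TH ν z h *ᵥ d) i = ∑ y, ν y * (h y * ((d ⬝ᵥ z y) * z y i)) := by
  simp only [TH, mulVec, dotProduct, Matrix.of_apply, Finset.sum_mul, Finset.mul_sum]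
  rw [Finset.sum_comm]
  apply Finset.sum_congr rfl
  intro y _
  apply Finset.sum_congr rfl
  intro j _
  ring

theorem dot_TH (h : Y → ℝ) (a d : ι → ℝ) :
    a ⬝ᵥ (TH ν z h *ᵥ d) = ∑ y, ν y * (h y * ((a ⬝ᵥ z y) * (d ⬝ᵥ z y))) := by
  have h1 : ∀ i, a i * (TH ν z h *ᵥ d) i = ∑ y, ν y * (h y * ((a i * z y i) * (d ⬝ᵥ z y))) := by
    intro i
    rw [TH_mulVec, Finset.mul_sum]
    apply Finset.sum_congr rfl
    intro y _
    ring
  unfold dotProduct at h1 ⊢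
  simp only [h1]
  rw [Finset.sum_comm]
  apply Finset.sum_congr rfl
  intro y _
  rw [← Finset.mul_sum, ← Finset.mul_sum, Finset.sum_mul]

theorem TV_comm (c d : ι → ℝ) : TV ν z c *ᵥ d = TV ν z d *ᵥ c := by
  funext i
  unfold TV
  rw [TH_mulVec, TH_mulVec]
  apply Finset.sum_congr rfl
  intro y _
  ring

theorem dot_TV (a b c : ι → ℝ) :
    a ⬝ᵥ (TV ν z b *ᵥ c) = ∑ y, ν y * ((b ⬝ᵥ z y) * ((a ⬝ᵥ z y) * (c ⬝ᵥ z y))) := dot_TH _ _ _

theorem dot_TV_swap (a b c : ι → ℝ) : a ⬝ᵥ (TV ν z b *ᵥ c) = b ⬝ᵥ (TV ν z a *ᵥ c) := by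
  rw [dot_TV, dot_TV]
  apply Finset.sum_congr rfl
  intro y _
  ring

theorem dot_symm_mulVec {A : Matrix ι ι ℝ} (hA : Aᵀ = A) (a b : ι → ℝ) :
    a ⬝ᵥ (A *ᵥ b) = (A *ᵥ a) ⬝ᵥ b := by
  conv_rhs => rw [← hA, Matrix.mulVec_transpose, ← Matrix.dotProduct_mulVec]

/-- averages of squares over an isotropic system -/
theorem Iso.avg_sq (hz : Iso ν z) (R : Matrix κ ι ℝ) :
    ∑ y, ν y * ((R *ᵥ z y) ⬝ᵥ (R *ᵥ z y)) = hs R := by
  have h1 : ∀ y, ν y * ((R *ᵥ z y) ⬝ᵥ (R *ᵥ z y)) =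
      ∑ k, ∑ i, ∑ j, R k i * R k j * (ν y * (z y i * z y j)) := by
    intro y
    simp only [dotProduct, mulVec, Finset.mul_sum, Finset.sum_mul]
    apply Finset.sum_congr rfl
    intro k _
    rw [Finset.sum_comm]
    apply Finset.sum_congr rfl
    intro i _
    apply Finset.sum_congr rfl
    intro j _
    ring
  simp only [h1]
  unfold hs
  rw [Finset.sum_comm]
  apply Finset.sum_congr rfl
  intro k _
  rw [Finset.sum_comm]
  apply Finset.sum_congr rfl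
  intro i _
  rw [Finset.sum_comm]
  simp only [← Finset.mul_sum, hz i]
  simp [sq]

theorem Iso.avg_dot (hz : Iso ν z) (a b : ι → ℝ) :
    ∑ y, ν y * ((a ⬝ᵥ z y) * (b ⬝ᵥ z y)) = a ⬝ᵥ b := by
  have h1 : ∀ y, ν y * ((a ⬝ᵥ z y) * (b ⬝ᵥ z y)) =
      ∑ i, ∑ j, a i * b j * (ν y * (z y i * z y j)) := by
    intro y
    simp only [dotProduct, Finset.mul_sum, Finset.sum_mul]
    rw [Finset.sum_comm]
    apply Finset.sum_congr rfl
    intro i _
    apply Finset.sum_congr rfl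
    intro j _
    ring
  simp only [h1]
  rw [Finset.sum_comm]
  unfold dotProduct
  apply Finset.sum_congr rfl
  intro i _
  rw [Finset.sum_comm]
  simp only [← Finset.mul_sum, hz i]
  simp

/-- (0) -/
theorem Iso.avg_K (hz : Iso ν z) (R : Matrix κ ι ℝ) (v : ι → ℝ) :
    ∑ y, ν y * ((R *ᵥ (TV ν z (z y) *ᵥ v)) ⬝ᵥ (R *ᵥ (TV ν z (z y) *ᵥ v))) =
      hs (R * TV ν z v) := by
  rw [← hz.avg_sq]
  apply Finset.sum_congr rfl
  intro y _
  rw [TV_comm, Matrix.mulVec_mulVec]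

/-- averages of `hs (A K B)` -/
theorem Iso.avg_hs (hz : Iso ν z) (A : Matrix κ ι ℝ) (B : Matrix ι ρ ℝ) :
    ∑ y, ν y * hs (A * TV ν z (z y) * B) = ∑ j, hs (A * TV ν z (fun i => B i j)) := by
  have h1 : ∀ y, ν y * hs (A * TV ν z (z y) * B) = ∑ j, ν y *
      ((A *ᵥ (TV ν z (z y) *ᵥ fun i => B i j)) ⬝ᵥ (A *ᵥ (TV ν z (z y) *ᵥ fun i => B i j))) := by
    intro y
    rw [hs_eq_col, Finset.mul_sum]
    apply Finset.sum_congr rfl
    intro j _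
    rw [col_mul, ← Matrix.mulVec_mulVec]
  simp only [h1]
  rw [Finset.sum_comm]
  apply Finset.sum_congr rfl
  intro j _
  exact hz.avg_K A _

/-- averages of `K_y` against a function -/
theorem avg_TV (h : Y → ℝ) :
    ∑ y, (ν y * h y) • TV ν z (z y) = TV ν z (∑ y, (ν y * h y) • z y) := by
  rw [TV_sum]
  apply Finset.sum_congr rfl
  intro y _
  rw [TV_smul]

/-- sup bound -/
theorem Iso.opB_TH (hν : ∀ y, 0 ≤ ν y) (hz : Iso ν z) {h : Y → ℝ} {c : ℝ}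
    (hc : ∀ y, |h y| ≤ c) : OpB (TH ν z h) c := by
  apply opB_of_bil
  intro u w
  rw [dot_TH]
  have h1 : ∀ y, ν y * (h y * ((u ⬝ᵥ z y) * (w ⬝ᵥ z y))) =
      (Real.sqrt (ν y) * (h y * (u ⬝ᵥ z y))) * (Real.sqrt (ν y) * (w ⬝ᵥ z y)) := by
    intro y
    have := Real.mul_self_sqrt (hν y)
    calc _ = (Real.sqrt (ν y) * Real.sqrt (ν y)) * (h y * ((u ⬝ᵥ z y) * (w ⬝ᵥ z y))) := by
          rw [this]
      _ = _ := by ring
  simp only [h1]
  refine (Finset.sum_mul_sq_le_sq_mul_sq _ _ _).trans ?_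
  have h2 : ∑ y, (Real.sqrt (ν y) * (h y * (u ⬝ᵥ z y))) ^ 2 ≤ c ^ 2 * (u ⬝ᵥ u) := by
    rw [← hz.avg_dot u u, Finset.mul_sum]
    apply Finset.sum_le_sum
    intro y _
    have h3 : h y ^ 2 ≤ c ^ 2 := by
      have := hc y
      rw [← sq_abs (h y)]
      exact pow_le_pow_left₀ (abs_nonneg _) this 2
    rw [mul_pow, Real.sq_sqrt (hν y), mul_pow]
    have h4 : 0 ≤ ν y * (u ⬝ᵥ z y) ^ 2 := mul_nonneg (hν y) (sq_nonneg _)
    nlinarith
  have h5 : ∑ y, (Real.sqrt (ν y) * (w ⬝ᵥ z y)) ^ 2 = w ⬝ᵥ w := by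
    rw [← hz.avg_dot w w]
    apply Finset.sum_congr rfl
    intro y _
    rw [mul_pow, Real.sq_sqrt (hν y), sq (w ⬝ᵥ z y)]
  rw [h5]
  calc _ ≤ (c ^ 2 * (u ⬝ᵥ u)) * (w ⬝ᵥ w) :=
        mul_le_mul_of_nonneg_right h2 (dot_self_nonneg w)
    _ = _ := by ring

/-- trace of a square of a symmetric matrix -/
theorem hs_symm {A : Matrix ι ι ℝ} (hA : Aᵀ = A) : hs A = (A * A).trace := by
  unfold hs Matrix.trace
  apply Finset.sum_congr rfl
  intro i _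
  rw [Matrix.diag_apply, Matrix.mul_apply]
  apply Finset.sum_congr rfl
  intro j _
  have : A j i = A i j := by
    conv_lhs => rw [← hA]
    rfl
  rw [this, sq]

/-- `Σ_i |T_{A e_i}|²` -/
theorem sum_hs_TV_le {t2 : ℝ} (h1 : ∀ c, hs (TV ν z c) ≤ t2 * (c ⬝ᵥ c)) (A : Matrix ι ρ ℝ) :
    ∑ j, hs (TV ν z fun i => A i j) ≤ t2 * hs A := by
  rw [hs_eq_col, Finset.mul_sum]
  exact Finset.sum_le_sum fun j _ => h1 _

end Tri

end Pool.Agent.LRC
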