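import Pool.Agent.Lib_helper94.LRC.Tri
import Pool.Agent.Lib_helper59.LR2.State

/-!
# The data of the decoders (facts D0 of LR_Dec)
-/

set_option autoImplicit false
set_option linter.unusedSectionVars false

open Finset Matrix

namespace Pool.Agent.LRC

open Pool.Agent.LR2

variable {X Y ι : Type} [Fintype X] [Fintype Y] [Fintype ι] [DecidableEq ι]

/-- isotropy in `L²` (F1) -/
def F1 (ν : Y → ℝ) (z : Y → ι → ℝ) (t2 : ℝ) : Prop :=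
  ∀ h : Y → ℝ, hs (TH ν z h - (∑ y, ν y * h y) • (1 : Matrix ι ι ℝ)) ≤ t2 * ∑ y, ν y * h y ^ 2

/-- second moments of a system under a density of log-sup `s` (F4), (F5): `V` is the diagonal of
the second moments -/
def FT (μ : X → ℝ) (be : X → ι → ℝ) (V : ι → ℝ) (kap : ℝ) : Prop :=
  ∀ p : X → ℝ, IsPr p → ∀ s : ℝ, 0 ≤ s → (∀ x, p x ≤ Real.exp s * μ x) →
    ∀ (K : Matrix ι ι ℝ) (c : ℝ), Kᵀ = K → (∀ w, 0 ≤ w ⬝ᵥ (K *ᵥ w)) →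
      (∀ w, w ⬝ᵥ (K *ᵥ w) ≤ c * (w ⬝ᵥ w)) →
        ∑ x, p x * (be x ⬝ᵥ (K *ᵥ be x)) ≤ 2 * ∑ i, V i * K i i + kap * c * (s + 2)

/-- all facts of D0 -/
structure Core (μ : X → ℝ) (ν : Y → ℝ) (M : X → Y → ℝ) (U : ℝ) (V : ι → ℝ) (be : X → ι → ℝ)
    (z : Y → ι → ℝ) (t2 kap rho del2 w0 q2 : ℝ) : Prop where
  prX : IsPr μ
  prY : IsPr ν
  sgn : ∀ x y, M x y = 1 ∨ M x y = -1
  mean : em μ ν M = U
  iso : Iso ν z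
  cen : ∀ i, ∑ y, ν y * z y i = 0
  bez : ∀ x i, be x i = ∑ y, ν y * (ctd μ ν M x y * z y i)
  mom : ∀ i j, ∑ x, μ x * (be x i * be x j) = if i = j then V i else 0
  V_nonneg : ∀ i, 0 ≤ V i
  V_le : ∀ i, V i ≤ del2
  weak : ∑ x, μ x * ∑ y, ν y * (ctd μ ν M x y - be x ⬝ᵥ z y) ^ 2 ≤ w0
  f1 : F1 ν z t2
  f4 : FT μ be V kap
  f5 : FT ν z (fun _ => 1) rho
  row : ∑ x, μ x * (rmean ν M x - U) ^ 2 ≤ q2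
  col : ∑ y, ν y * (cmean μ M y - U) ^ 2 ≤ q2
  t2_one : 1 ≤ t2
  kap_nonneg : 0 ≤ kap
  rho_nonneg : 0 ≤ rho
  del2_nonneg : 0 ≤ del2

/-- `Core` with the product regularities; `a0` bounds `4 Λ cost / (m + 3)` -/
structure Core2 (μ : X → ℝ) (ν : Y → ℝ) (M : X → Y → ℝ) (U : ℝ) (V : ι → ℝ) (be : X → ι → ℝ)
    (z : Y → ι → ℝ) (t2 kap rho del2 w0 q2 lam a0 : ℝ) : Prop extends
    Core μ ν M U V be z t2 kap rho del2 w0 q2 where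
  lam_pos : 0 < lam
  a0_nonneg : 0 ≤ a0
  ps : ∀ (p : X → ℝ) (q : Y → ℝ) (s t : ℝ), IsPr p → IsPr q → (∀ x, p x ≤ Real.exp s * μ x) →
    (∀ y, q y ≤ Real.exp t * ν y) → em p q (ctd μ ν M) ≤ lam * (s + t + 2)
  pkl : ∀ (p : X → ℝ) (q : Y → ℝ), IsPr p → IsPr q → AC p μ → AC q ν →
    em p q (ctd μ ν M) ≤ 2 * lam * (KL p μ + KL q ν) + 6 * lam
  upr : ∀ θ : ℝ, 0 < θ → θ ≤ 1 / 2 → UPR μ ν M U (θ * a0 + 17 * (lam / θ)) (4 * (lam / θ))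
  mrow : ∀ θ : ℝ, 0 < θ → θ ≤ 1 / 2 → ∀ p : X → ℝ, IsPr p → AC p μ →
    |em p ν M - U| ≤ θ * a0 + lam / θ * (3 * KL p μ + 17)
  mcol : ∀ θ : ℝ, 0 < θ → θ ≤ 1 / 2 → ∀ q : Y → ℝ, IsPr q → AC q ν →
    |em μ q M - U| ≤ θ * a0 + lam / θ * (3 * KL q ν + 17)

/-- projection -/
def IsProj (P : Matrix ι ι ℝ) : Prop := Pᵀ = P ∧ P * P = P

/-- `Σ T_u²` over a frame of the range of `P` -/
def ThE (ν : Y → ℝ) (z : Y → ι → ℝ) (P : Matrix ι ι ℝ) : Matrix ι ι ℝ :=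
  ∑ i, TV ν z (fun k => P k i) * TV ν z (fun k => P k i)

/-- `Σ (T_u v) (T_u v)ᵀ` over a frame of the range of `P` -/
def ThF (ν : Y → ℝ) (z : Y → ι → ℝ) (P : Matrix ι ι ℝ) : Matrix ι ι ℝ :=
  ∑ i, TV ν z (fun k => P k i) * P * TV ν z (fun k => P k i)

/-- the noise of the first decoder: `t` copies of the first leg, `n` copies of the others -/
noncomputable def Nz3 (ν : Y → ℝ) (z : Y → ι → ℝ) (b : ι → ℝ) (K : Matrix ι ι ℝ) (t n : ℝ) : ℝ :=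
  let τ := TV ν z b
  let L := TV ν z (τ *ᵥ b)
  let v := τ *ᵥ (τ *ᵥ b)
  (v ⬝ᵥ (K *ᵥ v)) ^ 2 + 1 / t * ((L *ᵥ (K *ᵥ v)) ⬝ᵥ (L *ᵥ (K *ᵥ v))) +
    2 / n * (((τ * τ) *ᵥ (K *ᵥ v)) ⬝ᵥ ((τ * τ) *ᵥ (K *ᵥ v))) +
    1 / (t * n) * hs (L * K * (τ * τ)) + 1 / (t * n) * hs (TV ν z (K *ᵥ v) * τ) +
    1 / n ^ 2 * hs ((τ * τ) * K * (τ * τ)) +
    1 / (t * n ^ 2) * ∑ f, hs (TV ν z (fun k => (K * (τ * τ)) k f) * τ)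

/-- the noise of the second decoder (`K` is the light part `K^<`) -/
noncomputable def Nz2 (ν : Y → ℝ) (z : Y → ι → ℝ) (b : ι → ℝ) (K : Matrix ι ι ℝ) (t n : ℝ) : ℝ :=
  let τ := TV ν z b
  let L := TV ν z (τ *ᵥ b)
  let ρ := K *ᵥ b
  (ρ ⬝ᵥ (L *ᵥ ρ)) ^ 2 + 1 / t * ((K *ᵥ (L *ᵥ ρ)) ⬝ᵥ (K *ᵥ (L *ᵥ ρ))) +
    1 / n * ((τ *ᵥ (TV ν z ρ *ᵥ ρ)) ⬝ᵥ (τ *ᵥ (TV ν z ρ *ᵥ ρ))) +
    1 / (t * n) * hs (K * TV ν z ρ * τ)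

end Pool.Agent.LRC
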