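import Pool.Agent.Lib_helper94.LRC.Defs

/-!
# The asymptotic forms of the data
-/

set_option autoImplicit false
set_option linter.unusedSectionVars false

open Finset Matrix

namespace Pool.Agent.LRC

open Pool.Agent.LR2

/-- the facts of D0 with all parameters powers of `R` (`s` a tiny exponent) -/
structure CoreR {X Y ι : Type} [Fintype X] [Fintype Y] [Fintype ι] [DecidableEq ι] (R s : ℝ)
    (μ : X → ℝ) (ν : Y → ℝ) (M : X → Y → ℝ) (U : ℝ) (V : ι → ℝ) (be : X → ι → ℝ)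
    (z : Y → ι → ℝ) : Prop where
  core : Core2 μ ν M U V be z (R ^ (1 / 2 + s)) (R ^ (-(1 / 2) + s)) (R ^ (1 / 2 + s))
    (R ^ (-1 + s)) (R ^ (-18 : ℝ)) (R ^ (-(1 / 2) + s)) (R ^ (-(1 / 2) + s)) 1
  card : (Fintype.card ι : ℝ) ≤ R
  rank : ((Matrix.of M).rank : ℝ) ≤ R

/-- good rows: `m0 = R^(-s)`, `δ = R^(-1/4+4s)`, `W = R^(5s)` -/
structure RowsG {X Y ι : Type} [Fintype X] [Fintype Y] [Fintype ι] [DecidableEq ι] (R s : ℝ)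
    (μ : X → ℝ) (ν : Y → ℝ) (M : X → Y → ℝ) (U : ℝ) (be : X → ι → ℝ)
    (z : Y → ι → ℝ) (Xg : Finset X) : Prop where
  h1 : ∀ x ∈ Xg, (R ^ (-s)) ^ 2 ≤ be x ⬝ᵥ be x
  h2 : ∀ x ∈ Xg, (TV ν z (be x) *ᵥ be x + (2 * U) • be x) ⬝ᵥ
      (TV ν z (be x) *ᵥ be x + (2 * U) • be x) ≤ ((R ^ (-s)) ^ 2 * R ^ (-(1 / 4) + 4 * s)) ^ 2
  h3 : ∀ x ∈ Xg, R ^ (1 / 2 + s) * ∑ y, ν y * (ctd μ ν M x y - be x ⬝ᵥ z y) ^ 2 ≤ 1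
  big : 1 / 2 ≤ ∑ x ∈ Xg, μ x

/-- the normalised rows -/
noncomputable def bn {X ι : Type} [Fintype ι] (be : X → ι → ℝ) (x : X) : ι → ℝ :=
  (Real.sqrt (be x ⬝ᵥ be x))⁻¹ • be x

/-- good columns, the spectral projections of `K_y` (`P` for `|λ| > R^(1/2-64c)`, `P'` for
`|λ| > R^(1/2+8c)`) and the spaces `F y` of the range lemma for the window `P - P'` -/
structure ColsG {X Y ι : Type} [Fintype X] [Fintype Y] [Fintype ι] [DecidableEq ι] (R s c : ℝ)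
    (μ : X → ℝ) (ν : Y → ℝ) (be : X → ι → ℝ)
    (z : Y → ι → ℝ) (Yg : Finset Y) (P P' F : Y → Matrix ι ι ℝ) : Prop where
  zy : ∀ y ∈ Yg, z y ⬝ᵥ z y ≤ 3 * R
  pb : 1 - R ^ (-10 : ℝ) ≤ ∑ y ∈ Yg, ν y
  projP : ∀ y, IsProj (P y)
  projP' : ∀ y, IsProj (P' y)
  projF : ∀ y, IsProj (F y)
  nest : ∀ y, P y * P' y = P' y ∧ P' y * P y = P' y
  comm : ∀ y, P y * TV ν z (z y) = TV ν z (z y) * P y
  comm' : ∀ y, P' y * TV ν z (z y) = TV ν z (z y) * P' y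
  low : ∀ y, OpB (TV ν z (z y) * (1 - P y)) (R ^ (1 / 2 - 64 * c))
  win : ∀ y, OpB (TV ν z (z y) * (P y - P' y)) (R ^ (1 / 2 + 8 * c))
  big : ∀ y, (R ^ (1 / 2 + 8 * c)) ^ 2 * hs (TV ν z (z y) * P' y) ≤
    hs (TV ν z (z y) * TV ν z (z y))
  incl : ∀ y, F y * (P y - P' y) = P y - P' y
  trF : ∀ y ∈ Yg, (F y).trace ≤ R ^ (1 / 2 + 560 * c)
  spr : ∀ w : ι → ℝ, ∑ y, ν y * (w ⬝ᵥ (F y *ᵥ w)) ≤ R ^ (-(1 / 2) + 560 * c) * (w ⬝ᵥ w)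
  rl : ∀ y ∈ Yg, ∀ ψ : X → ι → ℝ, (∀ x, (P y - P' y) *ᵥ ψ x = ψ x) → (∀ x, ψ x ⬝ᵥ ψ x ≤ 1) →
      ∑ x, μ x * (((1 - F y) *ᵥ (TV ν z (be x) *ᵥ ψ x)) ⬝ᵥ
          ((1 - F y) *ᵥ (TV ν z (be x) *ᵥ ψ x))) ≤ R ^ (-(7 * c))

end Pool.Agent.LRC
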